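import Pool.Agent.J4H92.CM.Stm

set_option autoImplicit false

/-! Piece PRD of project CM (statement of helper92). -/

namespace Pool.Agent.J4H52.CM

open Filter Topology Pool.Agent.J4H92.CM

theorem step_lower (y : ℝ) (hy : 1 < y) (n : ℕ) :
    (((n : ℝ) + 1) ^ (1 - y) - ((n : ℝ) + 2) ^ (1 - y)) / (y - 1) ≤ 1 / ((n : ℝ) + 1) ^ y := by
  have hn : (0 : ℝ) < (n : ℝ) + 1 := by positivity
  have hy' : 0 < y - 1 := by linarith
  rw [div_le_iff₀ hy']
  have h1 : ((n : ℝ) + 2) ^ (1 - y) = ((n : ℝ) + 1) ^ (1 - y) * (1 + 1 / ((n : ℝ) + 1)) ^ (1 - y) := by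
    rw [← Real.mul_rpow hn.le (by positivity)]
    congr 1
    field_simp
    ring
  have h2 : 1 - (y - 1) / ((n : ℝ) + 1) ≤ (1 + 1 / ((n : ℝ) + 1)) ^ (1 - y) := by
    rw [Real.rpow_def_of_pos (by positivity)]
    have h3 := Real.add_one_le_exp (Real.log (1 + 1 / ((n : ℝ) + 1)) * (1 - y))
    have h4 : Real.log (1 + 1 / ((n : ℝ) + 1)) ≤ 1 / ((n : ℝ) + 1) := by
      have := Real.log_le_sub_one_of_pos (show (0 : ℝ) < 1 + 1 / ((n : ℝ) + 1) by positivity)
      linarith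
    have h5 : (y - 1) / ((n : ℝ) + 1) = (y - 1) * (1 / ((n : ℝ) + 1)) := by ring
    rw [h5]
    nlinarith
  have h3 : (0 : ℝ) < ((n : ℝ) + 1) ^ (1 - y) := Real.rpow_pos_of_pos hn _
  have h4 : ((n : ℝ) + 1) ^ (1 - y) = ((n : ℝ) + 1) * (1 / ((n : ℝ) + 1) ^ y) := by
    rw [Real.rpow_sub hn, Real.rpow_one]
    ring
  have h6 : ((n : ℝ) + 1) ^ (1 - y) * (1 - (y - 1) / ((n : ℝ) + 1)) =
      ((n : ℝ) + 1) ^ (1 - y) - 1 / ((n : ℝ) + 1) ^ y * (y - 1) := by
    rw [h4]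
    field_simp
  have h7 := mul_le_mul_of_nonneg_left h2 h3.le
  rw [h6] at h7
  rw [h1]
  linarith

theorem zeta_lower (y : ℝ) (hy : 1 < y) : 1 / (y - 1) ≤ ‖riemannZeta (y : ℂ)‖ := by
  have hy' : 0 < y - 1 := by linarith
  have hs : Summable fun n : ℕ => 1 / ((n : ℝ) + 1) ^ y := by
    have := (summable_nat_add_iff 1).2 (Real.summable_one_div_nat_rpow.2 hy)
    refine this.congr fun n => ?_
    push_cast
    rfl
  have hz : riemannZeta (y : ℂ) = ((∑' n : ℕ, 1 / ((n : ℝ) + 1) ^ y : ℝ) : ℂ) := by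
    rw [zeta_eq_tsum_one_div_nat_add_one_cpow (by simpa using hy), Complex.ofReal_tsum]
    refine tsum_congr fun n => ?_
    rw [Complex.ofReal_div, Complex.ofReal_one, Complex.ofReal_cpow (by positivity)]
    push_cast
    rfl
  rw [hz, Complex.norm_real, Real.norm_eq_abs,
    abs_of_nonneg (tsum_nonneg fun n => by positivity)]
  have hpart : ∀ N : ℕ, (1 - ((N : ℝ) + 1) ^ (1 - y)) / (y - 1) ≤
      ∑' n : ℕ, 1 / ((n : ℝ) + 1) ^ y := by
    intro N
    refine le_trans ?_ (hs.sum_le_tsum (Finset.range N) fun n _ => by positivity)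
    induction N with
    | zero => simp
    | succ N ih =>
      rw [Finset.sum_range_succ]
      have h1 := step_lower y hy N
      have h2 : (1 - (((N + 1 : ℕ) : ℝ) + 1) ^ (1 - y)) / (y - 1) =
          (1 - ((N : ℝ) + 1) ^ (1 - y)) / (y - 1) +
            (((N : ℝ) + 1) ^ (1 - y) - ((N : ℝ) + 2) ^ (1 - y)) / (y - 1) := by
        have : (((N + 1 : ℕ) : ℝ) + 1) = (N : ℝ) + 2 := by push_cast; ring
        rw [this]
        ring
      rw [h2]
      linarith
  have hlim : Tendsto (fun N : ℕ => (1 - ((N : ℝ) + 1) ^ (1 - y)) / (y - 1)) atTop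
      (𝓝 ((1 - 0) / (y - 1))) := by
    have h1 : Tendsto (fun N : ℕ => ((N : ℝ) + 1) ^ (1 - y)) atTop (𝓝 0) := by
      have h2 := (tendsto_rpow_neg_atTop hy').comp
        (tendsto_atTop_add_const_right atTop (1 : ℝ) tendsto_natCast_atTop_atTop)
      refine h2.congr fun N => ?_
      simp only [Function.comp_apply]
      congr 1
      ring
    exact (tendsto_const_nhds.sub h1).div_const _
  rw [sub_zero] at hlim
  exact le_of_tendsto' hlim hpart

/-- the real number `p ^ (-1 - x)` -/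
noncomputable def qq (x : ℝ) (p : ℕ) : ℝ := 1 / (p : ℝ) * (p : ℝ) ^ (-x)

theorem qq_sq (x : ℝ) {p : ℕ} (hp : p.Prime) : qq x p * qq x p = (p : ℝ) ^ (-(2 * x + 2)) := by
  have hp0 : (0 : ℝ) < p := by exact_mod_cast hp.pos
  unfold qq
  have h1 : (1 : ℝ) / p = (p : ℝ) ^ (-1 : ℝ) := by
    rw [Real.rpow_neg_one, one_div]
  rw [h1, ← Real.rpow_add hp0, ← Real.rpow_add hp0]
  congr 1
  ring

theorem qq_nonneg (x : ℝ) (p : ℕ) : 0 ≤ qq x p := by
  unfold qq
  positivity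

theorem qq_lt_one {x : ℝ} (hx : -(1 / 2 : ℝ) < x) {p : ℕ} (hp : p.Prime) : qq x p < 1 := by
  have hp1 : (1 : ℝ) < p := by exact_mod_cast hp.one_lt
  have h1 : qq x p * qq x p < 1 := by
    rw [qq_sq x hp]
    exact Real.rpow_lt_one_of_one_lt_of_neg hp1 (by linarith)
  nlinarith [qq_nonneg x p]

theorem norm_u {x : ℝ} (hx : -(1 / 2 : ℝ) < x) {p : ℕ} (hp : p.Prime) :
    ‖1 - u p * (p : ℂ) ^ (-(x : ℂ))‖ = 1 - qq x p := by
  have h1 : u p * (p : ℂ) ^ (-(x : ℂ)) = ((qq x p : ℝ) : ℂ) := by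
    unfold u qq
    rw [Complex.ofReal_mul, Complex.ofReal_cpow (Nat.cast_nonneg p)]
    push_cast
    rfl
  rw [h1, ← Complex.ofReal_one, ← Complex.ofReal_sub, Complex.norm_real, Real.norm_eq_abs,
    abs_of_nonneg (by linarith [qq_lt_one hx hp])]

theorem norm_f {x : ℝ} {f : ℕ → ℂ} {p : ℕ} (hp : p.Prime) (hf : ‖f p‖ ≤ 1 / p) :
    ‖1 - f p * (p : ℂ) ^ (-(x : ℂ))‖ ≤ 1 + qq x p := by
  have hp0 : (0 : ℝ) < p := by exact_mod_cast hp.pos
  refine (norm_sub_le _ _).trans ?_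
  rw [norm_one, norm_mul]
  have h1 : ‖(p : ℂ) ^ (-(x : ℂ))‖ = (p : ℝ) ^ (-x) := by
    have := Complex.norm_cpow_eq_rpow_re_of_pos hp0 (-(x : ℂ))
    simpa using this
  rw [h1]
  unfold qq
  have h2 := mul_le_mul_of_nonneg_right hf (Real.rpow_nonneg hp0.le (-x))
  linarith

theorem PE_succ (N : ℕ) (f : ℕ → ℂ) (s : ℂ) :
    PE (N + 1) f s = if N.Prime then (1 - f N * (N : ℂ) ^ (-s)) * PE N f s else PE N f s := by
  unfold PE
  rw [Nat.primesBelow_succ]
  split_ifs with h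
  · rw [Finset.prod_insert (by simp [Nat.mem_primesBelow])]
  · rfl

theorem t_PRD : S_PRD := by
  intro f N0 x T hf hx hx0 hT hN
  set P : ℕ → ℝ := fun N => ∏ p ∈ Nat.primesBelow N, (1 - (p : ℝ) ^ (-(2 * x + 2))) with hPdef
  have hfac : ∀ p : ℕ, p.Prime → 0 < 1 - (p : ℝ) ^ (-(2 * x + 2)) := by
    intro p hp
    have hp1 : (1 : ℝ) < p := by exact_mod_cast hp.one_lt
    have := Real.rpow_lt_one_of_one_lt_of_neg hp1 (show -(2 * x + 2) < 0 by linarith)
    linarith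
  have hPpos : ∀ N, 0 < P N := fun N => Finset.prod_pos fun p hp =>
    hfac p (Nat.prime_of_mem_primesBelow hp)
  have hPs : ∀ N, P (N + 1) = if N.Prime then (1 - (N : ℝ) ^ (-(2 * x + 2))) * P N else P N := by
    intro N
    simp only [hPdef]
    rw [Nat.primesBelow_succ]
    split_ifs with h
    · rw [Finset.prod_insert (by simp [Nat.mem_primesBelow])]
    · rfl
  have hstep : ∀ N, N0 ≤ N → ‖PE N u x‖ * ‖PE N f x‖ * P N0 ≤
      ‖PE N0 u x‖ * ‖PE N0 f x‖ * P N := by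
    intro N hNN
    induction N, hNN using Nat.le_induction with
    | base => exact le_rfl
    | succ N hNN ih =>
      rw [PE_succ, PE_succ, hPs]
      by_cases hp : N.Prime
      · simp only [hp, if_true]
        rw [norm_mul, norm_mul, norm_u hx hp]
        have h1 := norm_f (x := x) hp (hf N hp hNN)
        have h2 : 1 - (N : ℝ) ^ (-(2 * x + 2)) = (1 - qq x N) * (1 + qq x N) := by
          rw [← qq_sq x hp]
          ring
        have h3 : 0 ≤ 1 - qq x N := by linarith [qq_lt_one hx hp]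
        have h4 : 0 ≤ ‖PE N u x‖ * ‖PE N f x‖ * P N0 :=
          mul_nonneg (mul_nonneg (norm_nonneg _) (norm_nonneg _)) (hPpos N0).le
        rw [h2]
        calc (1 - qq x N) * ‖PE N u x‖ * (‖1 - f N * (N : ℂ) ^ (-(x : ℂ))‖ * ‖PE N f x‖) * P N0
            = ((1 - qq x N) * ‖1 - f N * (N : ℂ) ^ (-(x : ℂ))‖) *
              (‖PE N u x‖ * ‖PE N f x‖ * P N0) := by ring
          _ ≤ ((1 - qq x N) * (1 + qq x N)) * (‖PE N u x‖ * ‖PE N f x‖ * P N0) :=
              mul_le_mul_of_nonneg_right (mul_le_mul_of_nonneg_left h1 h3) h4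
          _ ≤ ((1 - qq x N) * (1 + qq x N)) * (‖PE N0 u x‖ * ‖PE N0 f x‖ * P N) :=
              mul_le_mul_of_nonneg_left ih (mul_nonneg h3 (by linarith [qq_nonneg x N]))
          _ = _ := by ring
      · simp only [hp, if_false]
        exact ih
  have hkey : ∀ N, N0 ≤ N → P N0 * (P N)⁻¹ ≤ T * ‖PE N0 u x‖ * ‖PE N0 f x‖ := by
    intro N hNN
    rw [← div_eq_mul_inv, div_le_iff₀ (hPpos N)]
    have h1 := hN N hNN
    have h2 := mul_le_mul_of_nonneg_left (hstep N hNN) hT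
    have h3 := mul_le_mul_of_nonneg_right h1 (hPpos N0).le
    nlinarith
  have hy : (1 : ℝ) < 2 * x + 2 := by linarith
  have hlim : Tendsto (fun N : ℕ => P N0 * (P N)⁻¹) atTop
      (𝓝 (P N0 * ‖riemannZeta ((2 * x + 2 : ℝ) : ℂ)‖)) := by
    refine Tendsto.const_mul _ ?_
    have h1 := (riemannZeta_eulerProduct (s := ((2 * x + 2 : ℝ) : ℂ)) (by simpa using hy)).norm
    refine h1.congr fun N => ?_
    rw [norm_prod, hPdef]
    simp only
    rw [← Finset.prod_inv_distrib]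
    refine Finset.prod_congr rfl fun p hp => ?_
    have hp' := Nat.prime_of_mem_primesBelow hp
    have h2 : (p : ℂ) ^ (-((2 * x + 2 : ℝ) : ℂ)) = (((p : ℝ) ^ (-(2 * x + 2)) : ℝ) : ℂ) := by
      rw [Complex.ofReal_cpow (Nat.cast_nonneg p)]
      push_cast
      rfl
    rw [h2, ← Complex.ofReal_one, ← Complex.ofReal_sub, norm_inv, Complex.norm_real,
      Real.norm_eq_abs, abs_of_pos (hfac p hp')]
  have hfin : P N0 * ‖riemannZeta ((2 * x + 2 : ℝ) : ℂ)‖ ≤ T * ‖PE N0 u x‖ * ‖PE N0 f x‖ :=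
    le_of_tendsto hlim (eventually_atTop.2 ⟨N0, hkey⟩)
  have hz := zeta_lower (2 * x + 2) hy
  have e : 2 * x + 2 - 1 = 2 * x + 1 := by ring
  rw [e] at hz
  refine le_trans ?_ hfin
  rw [mul_comm]
  exact mul_le_mul_of_nonneg_left hz (hPpos N0).le

end Pool.Agent.J4H52.CM
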